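import Pool.Agent.Run7.h192.Alb.Tfae

/-!
# The Albanese kernels of products of curves and four points on the square of a curve

Let `𝒱` be a class of smooth projective varieties over an algebraically closed field `k` (here: over
the algebraic closure of `ℚ`) which is closed under products, with Chow groups `C` (rational
coefficients), and let `P` be the point. `Setting`: `P` is final, of dimension `0` and degree `1`,
every variety has a point, zero-cycles are combinations of points, and the theorem of the cube.
`AlbKer C z`: the zero-cycle `z` on `X` is killed by all divisors on all products `X × T`; these `z`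
are the classes of degree zero in the kernel of the Albanese map, rationally.

1. The Albanese kernel of `X × Y` is zero if and only if those of `X` and `Y` are zero and the
   products of zero-cycles of degree zero on `X` and on `Y` are zero.
2. The Albanese kernel of `X × Y × Z` is zero if and only if those of `X × Y`, `X × Z` and `Y × Z`
   are zero.
3. Let `Q` be a property of triples `(c, u, v)`, `c` a curve and `u`, `v` points of `c`, such that any
   two points of any variety are the images of `u` and `v` under a morphism from such a curve `c`.
   The following are equivalent: the Albanese kernels of all varieties dominated by products of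
   curves are zero; those of `c × c` are zero for all curves `c`;
   `(u, u) + (v, v) = (u, v) + (v, u)` in `CH_0(c × c)` for all `(c, u, v)` with property `Q`;
   `(a, a) + (b, b) = (a, b) + (b, a)` in `CH_0(X × X)` for all points `a`, `b` of all varieties `X`;
   `x × y = 0` for all zero-cycles `x` and `y` of degree zero on `X` and `Y`; if the Albanese kernels
   of `X` and `Y` are zero, then that of `X × Y` is zero.

Over the algebraic closure of `ℚ` one can take for `Q`, by the theorem of Belyi: `c` is a Galois
covering of the line branched over three points, and `u`, `v` are in the fibre over one of them.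
-/

open CategoryTheory Pool.Agent.H914 Pool.Agent.R903 Pool.Agent.Run7.h192.Alb

universe u v

namespace Pool.Agent.Results.MP_2eeeac_ag.FourPointsOnCurves

theorem result {k : Type u} [Field k] {𝒱 : VarClass k} {C : ChowTheory.{u, v} 𝒱} {P : 𝒱.Obj}
    (h : Setting C P) :
    (∀ X Y : 𝒱.Obj, AlbInjective C (X.prod Y) ↔
      AlbInjective C X ∧ AlbInjective C Y ∧ ProductsVanish C X Y) ∧
    (∀ X Y Z : 𝒱.Obj, AlbInjective C ((X.prod Y).prod Z) ↔
      AlbInjective C (X.prod Y) ∧ AlbInjective C (X.prod Z) ∧ AlbInjective C (Y.prod Z)) ∧
    ∀ Q : (c : 𝒱.Obj) → (P ⟶ c) → (P ⟶ c) → Prop, Connects P Q →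
      [∀ X : 𝒱.Obj, DominatedByCurves C X → AlbInjective C X,
        ∀ c : 𝒱.Obj, c.dim = 1 → AlbInjective C (c.prod c),
        ∀ (c : 𝒱.Obj) (u v : P ⟶ c), c.dim = 1 → Q c u v → FourPoints C u v,
        ∀ (X : 𝒱.Obj) (a b : P ⟶ X), FourPoints C a b,
        ∀ X Y : 𝒱.Obj, ProductsVanish C X Y,
        ∀ X Y : 𝒱.Obj, AlbInjective C X → AlbInjective C Y → AlbInjective C (X.prod Y)].TFAE :=
  ⟨fun _ _ => by rw [h.productsVanish_iff]; exact h.injective_iff, fun _ _ _ => h.three, h.tfae⟩

end Pool.Agent.Results.MP_2eeeac_ag.FourPointsOnCurves
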