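import Pool.Agent.Run7.h780.TW.Meet
import Pool.Agent.Run7.h780.TW.Stm5

/-!
# Any two points of elliptic curves over the algebraic numbers have a common orthogonal point

For points `P ∈ E(ℚ̄)` and `Q ∈ E'(ℚ̄)` of elliptic curves let `z(P, Q)` be the class of the zero-cycle
`([P] - [0]) × ([Q] - [0])` on `E × E'`, which is in the kernel of the Albanese map.  The conjecture predicts
that `z(P, Q) = 0` for all points.  Consider the graph whose vertices are the points of infinite order of all
the elliptic curves over `ℚ̄`, with an edge between `P` and `Q` if `z(P, Q) = 0`.  The conjecture (for products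
of elliptic curves) says that it is complete; we show that any two vertices `P₁` and `P₂` have a common
neighbour `R` (and infinitely many of them, on curves with different `j`-invariants).

More precisely: `P₁` and `P₂` lie on isotropic systems `Λ₁` and `Λ₂` (subgroups of infinite rank of the groups of
points of all the elliptic curves over `ℚ̄`, on which all the zero-cycles of degree zero and with sum zero, on
all products of elliptic curves, are rationally equivalent to zero) which have a common point `R` of infinite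
order on a curve `E₃`.  So `z(P, R) = 0` for all the elliptic curves `E` and all `P ∈ Λ₁(E) + Λ₂(E)`.  The
`j`-invariant of `E₃` is not in any given finite set.

The proof: in `MP_b8021b_nt.AlbaneseThroughPoint` the system through `P₁` depends on a parameter `X₁`, a cross-ratio
of a multiple of `P₁`, which is small at a place over `2`.  If `X₁` and `X₂` are parameters of `P₁` and `P₂`, then
the point `R = (1, √((1 - X₁) (1 - X₂)))` of the curve `y² = u (u - X₁) (u - X₂)` has the parameters `X₁` and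
`X₂` (with respect to different numberings of the points of order two), and it is of infinite order because it
is close to the origin.
-/

set_option autoImplicit false

namespace Pool.Agent.Results.MP_2eeeac_ag.MeetingSystems

open Pool.Agent.Run7.h780.ZS

open scoped Classical in
theorem result (a₁ b₁ a₂ b₂ : AlgebraicClosure ℚ) (h₁ : 4 * a₁ ^ 3 + 27 * b₁ ^ 2 ≠ 0)
    (h₂ : 4 * a₂ ^ 3 + 27 * b₂ ^ 2 ≠ 0) (P₁ : Pt a₁ b₁) (P₂ : Pt a₂ b₂)
    (J : Finset (AlgebraicClosure ℚ)) :
    ∃ (Λ₁ Λ₂ : (a b : AlgebraicClosure ℚ) → AddSubgroup (Pt a b)) (c d : AlgebraicClosure ℚ)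
      (R : Pt c d), IsotropicSystem Λ₁ ∧ IsotropicSystem Λ₂ ∧ P₁ ∈ Λ₁ a₁ b₁ ∧ P₂ ∈ Λ₂ a₂ b₂ ∧
        4 * c ^ 3 + 27 * d ^ 2 ≠ 0 ∧ c ^ 3 / (4 * c ^ 3 + 27 * d ^ 2) ∉ J ∧
        (∀ n : ℕ, n ≠ 0 → n • R ≠ 0) ∧ R ∈ Λ₁ c d ∧ R ∈ Λ₂ c d ∧
        ∀ a b, 4 * a ^ 3 + 27 * b ^ 2 ≠ 0 → ∀ P ∈ Λ₁ a b ⊔ Λ₂ a b,
          cyc P R ∈ RatEquivZero a b c d := by
  obtain ⟨Λ₁, Λ₂, c, d, R, s1, s2, p1, p2, hD, hJ, hR, r1, r2, hr⟩ :=
    Pool.Agent.Run7.h780.TW.meeting (mul_ne_zero two_ne_zero h₁) (mul_ne_zero two_ne_zero h₂)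
      P₁ P₂ J
  exact ⟨Λ₁, Λ₂, c, d, R,
    ⟨fun a b h => s1.1 a b (mul_ne_zero two_ne_zero h), s1.2.1,
      fun r a b h => s1.2.2 r a b fun i => mul_ne_zero two_ne_zero (h i)⟩,
    ⟨fun a b h => s2.1 a b (mul_ne_zero two_ne_zero h), s2.2.1,
      fun r a b h => s2.2.2 r a b fun i => mul_ne_zero two_ne_zero (h i)⟩, p1, p2,
    right_ne_zero_of_mul hD, hJ, hR, r1, r2, fun a b h => hr a b (mul_ne_zero two_ne_zero h)⟩

end Pool.Agent.Results.MP_2eeeac_ag.MeetingSystems
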