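import Mathlib
import Pool.Agent.Run7.h508.ZC.Rep
import Pool.Agent.Run7.h508.BR.DFF

/-!
# The kernel of the Albanese map and everywhere unramified extensions of prime degree

`X` is a projective variety over a totally complex number field `k`, with the equations `F = 0`,
`F ∈ I`. Zero-cycles on `X` over the algebraic closure `Ω` of `k` and their rational equivalence are
constructed in `Pool.Agent.Run7.h508.ZC.Cyc`, and `Chow Ω I` is the group `CH₀(X_Ω)_ℚ`.

`A` is an abelian group with an action of the automorphisms of `Ω` over `k`, and `α` is a map from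
the points of `X` to `A` whose differences are equivariant. The case of this problem is the Albanese
map from `X(Ω)` to `A = Alb_X(Ω)`: it is defined over `k` up to a translation. Then `albKernel α` is
the space `F²(X_Ω)_ℚ`, and by Galois descent `kernelOver α j` is the space `F²(X_K)_ℚ` for the
embedding `j` of the number field `K ⊇ k`.

We show: the Albanese map is injective on the zero-cycles of degree zero over `Ω` (modulo torsion)
if and only if it is injective over `k`, and if `F²(X_K)_ℚ = F²(X_L)_ℚ` for the everywhere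
unramified Galois extensions `L/K` of prime degree, `K ⊇ k`, completely split above a given integer
`m`. All `F²(X_K)_ℚ` are finite-dimensional if and only if `F²(X_k)_ℚ` is, and the growth in these
unramified extensions is finite-dimensional.
-/

set_option autoImplicit false
set_option linter.unusedSectionVars false

namespace Pool.Agent.Results.MP_2eeeac_ag.UnramifiedAlbaneseKernel

open NumberField Pool.Agent.Run7.h508.ZC TensorProduct

/-- All inertia groups of `L/K` are trivial, and the decomposition groups of the primes above `m`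
are trivial. -/
def UnramifiedSplit (m : ℕ) (K L : Type) [Field K] [Field L] [Algebra K L] : Prop :=
  ∀ P : Ideal (𝓞 L), P.IsMaximal → ∀ g : L ≃ₐ[K] L,
    ((∀ x y : 𝓞 L, (y : L) = g x → y - x ∈ P) → g = 1) ∧
    ((m : 𝓞 L) ∈ P → (∀ x y : 𝓞 L, (y : L) = g x → (y ∈ P ↔ x ∈ P)) → g = 1)

section defs

variable {k : Type} [Field k] {Ω : Type} [Field Ω] [Algebra k Ω] {n : ℕ}
  {I : Set (MvPolynomial (Fin (n + 1)) k)} {A : Type} [AddCommGroup A]
  [DistribMulAction (Ω ≃ₐ[k] Ω) A]

/-- The differences of the values of `α` are equivariant: `α` is defined over `k` up to a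
translation. -/
def DefinedOver (α : Pt Ω I → A) : Prop :=
  ∀ (σ : Ω ≃ₐ[k] Ω) (P Q : Pt Ω I), α (P.act σ) - α (Q.act σ) = σ • (α P - α Q)

/-- The value `∑ qᵢ ⊗ α(Pᵢ)` in `ℚ ⊗ A` of the cycle `∑ qᵢ Pᵢ`. -/
noncomputable def value (α : Pt Ω I → A) : (Pt Ω I →₀ ℚ) →ₗ[ℚ] ℚ ⊗[ℤ] A :=
  Finsupp.linearCombination ℚ (fun P => (1 : ℚ) ⊗ₜ[ℤ] α P)

/-- The classes of the cycles of degree zero with the value zero. -/
noncomputable def albKernel (α : Pt Ω I → A) : Submodule ℚ (Chow Ω I) :=
  (LinearMap.ker (degree Ω I) ⊓ LinearMap.ker (value α)).map (rat Ω I).mkQ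

/-- The classes in the kernel which are fixed by the automorphisms of `Ω` over `k` which fix the
field `j(K)`. -/
noncomputable def kernelOver (α : Pt Ω I → A) {K : Type} [Field K] [Algebra k K]
    (j : K →ₐ[k] Ω) : Submodule ℚ (Chow Ω I) where
  carrier := {c | c ∈ albKernel α ∧
    ∀ σ : Ω ≃ₐ[k] Ω, (∀ x : K, σ (j x) = j x) → chowAct Ω I σ c = c}
  zero_mem' := ⟨Submodule.zero_mem _, fun σ _ => map_zero _⟩
  add_mem' := fun {a b} ha hb => ⟨Submodule.add_mem _ ha.1 hb.1, fun σ h => by
    rw [map_add, ha.2 σ h, hb.2 σ h]⟩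
  smul_mem' := fun q a ha => ⟨Submodule.smul_mem _ q ha.1, fun σ h => by
    rw [map_smul, ha.2 σ h]⟩

end defs

section cases

variable {k : Type} [Field k] [NumberField k] {Ω : Type} [Field Ω] [Algebra k Ω] {n : ℕ}
  {I : Set (MvPolynomial (Fin (n + 1)) k)} {A : Type} [AddCommGroup A]

/-- No growth in the everywhere unramified extensions `L/K` of prime degree, split above `m`. -/
def UnramifiedNoGrowth (α : Pt Ω I → A) (m : ℕ) : Prop :=
  ∀ (K L : Type) [Field K] [NumberField K] [Field L] [NumberField L] [Algebra k K] [Algebra K L]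
    [Algebra k L] [IsScalarTower k K L] [IsGalois K L], (Module.finrank K L).Prime →
    UnramifiedSplit m K L → ∀ j : L →ₐ[k] Ω,
    kernelOver α j ≤ kernelOver α (j.comp (IsScalarTower.toAlgHom k K L))

/-- Finite-dimensional growth in the everywhere unramified extensions `L/K` of prime degree, split
above `m`. -/
def UnramifiedFiniteGrowth (α : Pt Ω I → A) (m : ℕ) : Prop :=
  ∀ (K L : Type) [Field K] [NumberField K] [Field L] [NumberField L] [Algebra k K] [Algebra K L]
    [Algebra k L] [IsScalarTower k K L] [IsGalois K L], (Module.finrank K L).Prime →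
    UnramifiedSplit m K L → ∀ j : L →ₐ[k] Ω, ∃ W : Submodule ℚ (Chow Ω I), W.FG ∧
      kernelOver α j ≤ kernelOver α (j.comp (IsScalarTower.toAlgHom k K L)) ⊔ W

end cases

section stable

variable {k : Type} [Field k] {Ω : Type} [Field Ω] [Algebra k Ω] {n : ℕ}
  {I : Set (MvPolynomial (Fin (n + 1)) k)} {A : Type} [AddCommGroup A]
  [DistribMulAction (Ω ≃ₐ[k] Ω) A]

/-- the action on `ℚ ⊗ A` -/
noncomputable def tact (σ : Ω ≃ₐ[k] Ω) : (ℚ ⊗[ℤ] A) →ₗ[ℚ] (ℚ ⊗[ℤ] A) :=
  LinearMap.baseChange ℚ (DistribSMul.toAddMonoidHom A σ).toIntLinearMap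

lemma value_cact {α : Pt Ω I → A} (hα : DefinedOver α) (σ : Ω ≃ₐ[k] Ω) (P₀ : Pt Ω I)
    (z : Pt Ω I →₀ ℚ) : value α (cact σ z) =
      tact σ (value α z) + degree Ω I z • ((1 : ℚ) ⊗ₜ[ℤ] (α (P₀.act σ) - σ • α P₀)) := by
  induction z using Finsupp.induction_linear with
  | zero => simp
  | add a b ha hb =>
    rw [map_add, map_add, ha, hb, map_add, map_add, map_add, add_smul]
    abel
  | single P c =>
    rw [cact_single, value, Finsupp.linearCombination_single, Finsupp.linearCombination_single,
      map_smul, degree, Finsupp.linearCombination_single]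
    have h1 : tact σ ((1 : ℚ) ⊗ₜ[ℤ] α P) = (1 : ℚ) ⊗ₜ[ℤ] (σ • α P) := rfl
    have h2 := hα σ P P₀
    rw [smul_sub] at h2
    have h3 : α (P.act σ) = σ • α P + (α (P₀.act σ) - σ • α P₀) := by
      rw [sub_eq_iff_eq_add.mp h2]
      abel
    rw [h1, h3, TensorProduct.tmul_add, smul_add, smul_eq_mul, mul_one]

lemma kernel_stable {α : Pt Ω I → A} (hα : DefinedOver α) (σ : Ω ≃ₐ[k] Ω) (c : Chow Ω I)
    (hc : c ∈ albKernel α) : chowAct Ω I σ c ∈ albKernel α := by
  obtain ⟨z, ⟨hz, hz'⟩, rfl⟩ := hc
  have hz1 : degree Ω I z = 0 := hz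
  have hz2 : value α z = 0 := hz'
  refine ⟨cact σ z, ⟨?_, ?_⟩, rfl⟩
  · change degree Ω I (cact σ z) = 0
    rw [degree_cact, hz1]
  · change value α (cact σ z) = 0
    by_cases hP : Nonempty (Pt Ω I)
    · obtain ⟨P₀⟩ := hP
      rw [value_cact hα σ P₀, hz1, hz2, map_zero, zero_smul, add_zero]
    · have h0 : z = 0 := by
        ext P
        exact (hP ⟨P⟩).elim
      rw [h0, map_zero, map_zero]

end stable

section proof

open Pool.Agent.Run7.h508.BR

lemma unrSplit_of {m : ℕ} {K L : Type} [Field K] [Field L] [Algebra K L]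
    (h : UnrSplit m K L) : UnramifiedSplit m K L := by
  intro P hP g
  refine ⟨fun h1 => (h P hP).1 g fun x => h1 x _ rfl, fun hm h1 => (h P hP).2 hm g fun x =>
    h1 x _ rfl⟩

variable {k : Type} [Field k] [NumberField k] {Ω : Type} [Field Ω] [Algebra k Ω]
  [IsAlgClosed Ω] [Algebra.IsAlgebraic k Ω] {n : ℕ} {I : Set (MvPolynomial (Fin (n + 1)) k)}
  {A : Type} [AddCommGroup A] [DistribMulAction (Ω ≃ₐ[k] Ω) A]

lemma mem_kernel {α : Pt Ω I → A} {K : Type} [Field K] [Algebra k K] {j : K →ₐ[k] Ω}
    {c : Chow Ω I} : c ∈ kernelOver α j ↔ c ∈ albKernel α ∧ CFixed j c := Iff.rfl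

lemma cNoGrow_of {α : Pt Ω I → A} {m : ℕ} (h : UnramifiedNoGrowth α m) :
    CNoGrow (albKernel α) m := by
  intro K L _ _ _ _ _ _ _ _ _ hK hp hu j c hcT hc
  exact (h K L hp (unrSplit_of hu) j (mem_kernel.mpr ⟨hcT, hc⟩)).2

/-- the space of classes and the fixed space of the representation -/
lemma map_fix {α : Pt Ω I → A} (hα : DefinedOver α) {K : Type} [Field K] [Algebra k K]
    (j : K →ₐ[k] Ω) : (fixSub (trep Ω I (albKernel α) (kernel_stable hα)) j).map
      (albKernel α).subtype = kernelOver α j := by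
  ext c
  constructor
  · rintro ⟨v, hv, rfl⟩
    exact ⟨v.2, (fixed_iff (albKernel α) (kernel_stable hα) j v).mp hv⟩
  · rintro ⟨h1, h2⟩
    exact ⟨⟨c, h1⟩, (fixed_iff (albKernel α) (kernel_stable hα) j ⟨c, h1⟩).mpr h2, rfl⟩

lemma fg_iff {α : Pt Ω I → A} (hα : DefinedOver α) {K : Type} [Field K] [Algebra k K]
    (j : K →ₐ[k] Ω) : (kernelOver α j).FG ↔
      FiniteDimensional ℚ (fixSub (trep Ω I (albKernel α) (kernel_stable hα)) j) := by
  rw [← map_fix hα]
  constructor
  · intro h
    exact Module.Finite.iff_fg.mpr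
      (Submodule.fg_of_fg_map_injective _ Subtype.val_injective h)
  · intro h
    exact Submodule.FG.map _ (Module.Finite.iff_fg.mp h)

lemma gFin_of {α : Pt Ω I → A} (hα : DefinedOver α) {m : ℕ} (h : UnramifiedFiniteGrowth α m) :
    GFinGrow (trep Ω I (albKernel α) (kernel_stable hα)) m := by
  intro K L _ _ _ _ _ _ _ _ _ hK hp hu j
  obtain ⟨W, hW, hle⟩ := h K L hp (unrSplit_of hu) j
  refine ⟨(W ⊓ albKernel α).comap (albKernel α).subtype, ?_, ?_⟩
  · refine Submodule.fg_of_fg_map_injective (albKernel α).subtype Subtype.val_injective ?_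
    rw [Submodule.map_comap_subtype, inf_comm, inf_assoc, inf_idem]
    exact Submodule.FG.of_le hW inf_le_left
  · intro v hv
    have h1 : v.1 ∈ kernelOver α j := by
      rw [← map_fix hα]
      exact ⟨v, hv, rfl⟩
    obtain ⟨a, ha, w, hw, hsum⟩ := Submodule.mem_sup.mp (hle h1)
    have hwd : w ∈ albKernel α := by
      have h2 : w = v.1 - a := by rw [← hsum, add_sub_cancel_left]
      rw [h2]
      exact Submodule.sub_mem _ v.2 ha.1
    rw [← map_fix hα] at ha
    obtain ⟨a', ha', rfl⟩ := ha
    exact Submodule.mem_sup.mpr ⟨a', ha', ⟨w, hwd⟩, ⟨hw, hwd⟩, Subtype.ext hsum⟩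

end proof

/-- **Main theorem.** Let `k` be a totally complex number field with algebraic closure `Ω`, let `X`
be the projective variety with the equations `F = 0`, `F ∈ I`, let `α : X(Ω) → A` be the Albanese
map (or any map to an abelian group with an action of the Galois group, defined over `k` up to a
translation), and let `m > 0`.

* If `F²(X_K)_ℚ` does not grow in the everywhere unramified extensions of prime degree, split above
  `m`, of the number fields `K ⊇ k`, then it does not grow in any extension.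
* The kernel `F²(X_Ω)_ℚ` is zero if and only if its subspace of the classes defined over `k` is
  zero, and there is no growth in these unramified extensions.
* If `F²(X_K)_ℚ` grows by finite-dimensional spaces in these unramified extensions, then so it does
  in all extensions. So `F²(X_K)_ℚ` is finite-dimensional for all number fields `K ⊇ k` if and only
  if this holds for `K = k` and the growth in these unramified extensions is finite-dimensional. -/
theorem result (k : Type) [Field k] [NumberField k] (hk : IsTotallyComplex k) (Ω : Type) [Field Ω]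
    [Algebra k Ω] [IsAlgClosed Ω] [Algebra.IsAlgebraic k Ω] (n : ℕ)
    (I : Set (MvPolynomial (Fin (n + 1)) k)) (A : Type) [AddCommGroup A]
    [DistribMulAction (Ω ≃ₐ[k] Ω) A] (α : Pt Ω I → A) (hα : DefinedOver α) (m : ℕ) (hm : m ≠ 0) :
    (UnramifiedNoGrowth α m → ∀ (K L : Type) [Field K] [NumberField K] [Field L] [NumberField L]
      [Algebra k K] [Algebra k L] (f : K →ₐ[k] L) (j : L →ₐ[k] Ω),
      kernelOver α j = kernelOver α (j.comp f)) ∧
    ((albKernel α = ⊥) ↔ kernelOver α (Algebra.ofId k Ω) = ⊥ ∧ UnramifiedNoGrowth α m) ∧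
    (UnramifiedFiniteGrowth α m → ∀ (K L : Type) [Field K] [NumberField K] [Field L]
      [NumberField L] [Algebra k K] [Algebra k L] (f : K →ₐ[k] L) (j : L →ₐ[k] Ω),
      (kernelOver α (j.comp f)).FG → (kernelOver α j).FG) ∧
    ((∀ (K : Type) [Field K] [NumberField K] [Algebra k K] (j : K →ₐ[k] Ω),
        (kernelOver α j).FG) ↔
      (kernelOver α (Algebra.ofId k Ω)).FG ∧ UnramifiedFiniteGrowth α m) := by
  have hcx : ∀ (K : Type) [Field K] [NumberField K] [Algebra k K], IsTotallyComplex K :=
    fun K _ _ _ => Pool.Agent.Run7.h508.BR.complex_above hk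
  have hsub : ∀ (K L : Type) [Field K] [Field L] [Algebra k K] [Algebra k L] (f : K →ₐ[k] L)
      (j : L →ₐ[k] Ω), kernelOver α (j.comp f) ≤ kernelOver α j :=
    fun K L _ _ _ _ f j c hc => ⟨hc.1, fun σ hσ => hc.2 σ fun x => hσ (f x)⟩
  have hA : UnramifiedFiniteGrowth α m → ∀ (K L : Type) [Field K] [NumberField K] [Field L]
      [NumberField L] [Algebra k K] [Algebra k L] (f : K →ₐ[k] L) (j : L →ₐ[k] Ω),
      (kernelOver α (j.comp f)).FG → (kernelOver α j).FG := by
    intro h K L _ _ _ _ _ _ f j hfg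
    rw [fg_iff hα] at hfg ⊢
    exact Pool.Agent.Run7.h508.BR.gm_finite _ hm (gFin_of hα h) K L (hcx K) f j hfg
  refine ⟨fun h K L _ _ _ _ _ _ f j => le_antisymm (fun c hc => ?_) (hsub K L f j), ⟨fun h => ?_,
    fun h => ?_⟩, hA, ⟨fun h => ⟨?_, fun K L _ _ _ _ _ _ _ _ _ hp hu j => ?_⟩, fun h K _ _ _ j => ?_⟩⟩
  · exact ⟨hc.1, c_noGrow (albKernel α) (kernel_stable hα) hm (cNoGrow_of h) K L (hcx K) f j c
      hc.1 hc.2⟩
  · have h1 : ∀ c ∈ albKernel α, c = 0 := by
      intro c hc
      rw [h] at hc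
      exact hc
    refine ⟨?_, fun K L _ _ _ _ _ _ _ _ _ _ _ j c hc => ?_⟩
    · rw [eq_bot_iff]
      intro c hc
      rw [h1 c hc.1]
      exact Submodule.zero_mem _
    · rw [h1 c hc.1]
      exact Submodule.zero_mem _
  · rw [eq_bot_iff]
    intro c hc
    rw [c_vanish (albKernel α) (kernel_stable hα) hm hk (fun c hcT hc => ?_) (cNoGrow_of h.2) c hc]
    · exact Submodule.zero_mem _
    · have h2 : c ∈ kernelOver α (Algebra.ofId k Ω) := ⟨hcT, fun σ _ => hc σ⟩
      rw [h.1] at h2
      exact h2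
  · exact h k (Algebra.ofId k Ω)
  · exact ⟨kernelOver α j, h L j, le_sup_right⟩
  · refine hA h.2 k K (Algebra.ofId k K) j ?_
    have h2 : j.comp (Algebra.ofId k K) = Algebra.ofId k Ω := Subsingleton.elim _ _
    rw [h2]
    exact h.1

end Pool.Agent.Results.MP_2eeeac_ag.UnramifiedAlbaneseKernel
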