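import Pool.Agent.Run7.h780.ZC.Last2
import Pool.Agent.Run7.h780.ZC.Stm

/-!
# Relations between zero-cycles on products of two elliptic curves

`E₁ : y² = x³ + a x + b` and `E₂ : y² = x³ + c x + d` are elliptic curves over the algebraic numbers.  The
injectivity of the Albanese map of `E₁ × E₂` means that all the zero-cycles `([P] - [0]) × ([Q] - [0])` on
`E₁ × E₂` are rationally equivalent to zero.  For all large primes `p`, all embeddings `θ` of the algebraic numbers in the algebraic closure of `ℚ_p`, all finite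
extensions `F` of `ℚ_p` and all `P` in `E₁(ℚ̄)`, the points `Q` of `E₂(ℚ̄)` for which this is true form a
group of infinite rank modulo `E₂(F)`.
-/

set_option autoImplicit false

namespace Pool.Agent.Results.MP_2eeeac_ag.ZeroCyclesEllipticProducts

open Pool.Agent.Run7.h780.ZS

open scoped Classical in
theorem result {a b c d : AlgebraicClosure ℚ} (h₁ : 4 * a ^ 3 + 27 * b ^ 2 ≠ 0)
    (h₂ : 4 * c ^ 3 + 27 * d ^ 2 ≠ 0) :
    ∃ p₀ : ℕ, ∀ p : ℕ, p₀ ≤ p → ∀ [Fact p.Prime] (θ : AlgebraicClosure ℚ →+* PadicAlgCl p)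
      (F : IntermediateField ℚ_[p] (PadicAlgCl p)) [FiniteDimensional ℚ_[p] F] (P : Pt a b),
      ∃ Q : ℕ → Pt c d, (∀ n, cyc P (Q n) ∈ RatEquivZero a b c d) ∧
        ∀ g : ℕ →₀ ℤ, g ≠ 0 → ¬ DefinedOver F θ (g.sum fun n m => m • Q n) := by
  exact Pool.Agent.Run7.h780.ZC.main2 (mul_ne_zero two_ne_zero h₁) (mul_ne_zero two_ne_zero h₂)

end Pool.Agent.Results.MP_2eeeac_ag.ZeroCyclesEllipticProducts
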